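import Pool.Agent.W901.PX.LvC

/-!
# Folds in the levels of the polynomial hierarchy
-/

set_option autoImplicit false

namespace Pool.Agent.Y596.GI

open Pool.Agent.NPC Pool.Agent.H251R5.PQ Pool.Agent.W901.AT Pool.Agent.H579R2.Spt
open Pool.Agent.W901.NU Pool.Agent.W901.PX
open Pool.Agent.W903.GP (InPH SigmaP sigma_props sigma_ex sigma_succ sigma_mono u1 u1_pair poly_u1
  pid inP_iff graph)

section

variable {k : ℕ} {α β γ : Type} [TEnc α] [TEnc β] [TEnc γ]

/-- equality of two functions of the level -/
theorem sEq [TDec α] [TDec β] {f g : α → β} (hf : CFn (SigmaP (k + 1)) f)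
    (hg : CFn (SigmaP (k + 1)) g) : CPr (SigmaP (k + 1)) (fun a => f a = g a) := by
  have h1 : CPr (SigmaP (k + 1)) (fun q : α × β => f q.1 = q.2) := hf.2
  exact (sSubst hg h1)

/-- the intermediate values of a fold -/
def Run (F : γ → β → β) (b0 : β) : List γ → List β → Prop
  | [], ys => ys = [b0]
  | c :: l, ys => ∃ y ys', ys = y :: ys' ∧ ys'.head?.map (F c) = some y ∧ Run F b0 l ys'

omit [TEnc β] [TEnc γ] in
theorem run_iff (F : γ → β → β) (b0 : β) : ∀ (l : List γ) (ys : List β),
    Run F b0 l ys ↔ ys.length = l.length + 1 ∧ ys.reverse.head? = some b0 ∧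
      ∀ t ∈ l.zip (ys.zip ys.tail), F t.1 t.2.2 = t.2.1 := by
  intro l
  induction l with
  | nil =>
    intro ys
    constructor
    · rintro rfl
      simp
    · rintro ⟨h1, h2, _⟩
      obtain ⟨y, rfl⟩ := List.length_eq_one_iff.1 h1
      simp only [List.reverse_singleton, List.head?_cons, Option.some.injEq] at h2
      exact congrArg (fun t => [t]) h2
  | cons c l ih =>
    intro ys
    constructor
    · rintro ⟨y, ys', rfl, h1, h2⟩
      obtain ⟨h3, h4, h5⟩ := (ih ys').1 h2
      refine ⟨by rw [List.length_cons, h3, List.length_cons], ?_, ?_⟩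
      · rw [List.reverse_cons, List.head?_append, h4]
        rfl
      · cases ys' with
        | nil => simp at h3
        | cons y' ys'' =>
          intro t ht
          simp only [List.tail_cons, List.zip_cons_cons, List.mem_cons] at ht
          rcases ht with rfl | ht
          · simpa using h1
          · exact h5 t ht
    · rintro ⟨h1, h2, h3⟩
      match ys, h1, h2, h3 with
      | y :: y' :: ys'', h1, h2, h3 =>
        refine ⟨y, y' :: ys'', rfl, ?_, (ih _).2 ⟨by simpa using h1, ?_, ?_⟩⟩
        · have := h3 (c, (y, y')) (by simp)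
          simpa using this
        · rw [List.reverse_cons, List.head?_append] at h2
          have h4 : (y' :: ys'').reverse.head? ≠ none := by simp
          obtain ⟨z, hz⟩ := Option.ne_none_iff_exists'.1 h4
          rw [hz] at h2 ⊢
          simpa using h2
        · intro t ht
          refine h3 t ?_
          simp only [List.tail_cons, List.zip_cons_cons, List.mem_cons]
          exact Or.inr ht
      | [], h1, _, _ => simp at h1
      | [_], h1, _, _ => simp at h1

omit [TEnc β] [TEnc γ] in
theorem run_head {F : γ → β → β} {b0 : β} : ∀ {l : List γ} {ys : List β},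
    Run F b0 l ys → ys.head? = some (l.foldr F b0) := by
  intro l
  induction l with
  | nil => rintro ys rfl; rfl
  | cons c l ih =>
    rintro ys ⟨y, ys', rfl, h1, h2⟩
    rw [ih h2] at h1
    simp only [Option.map_some, Option.some.injEq] at h1
    rw [List.head?_cons, ← h1, List.foldr_cons]

omit [TEnc β] [TEnc γ] in
theorem run_tails (F : γ → β → β) (b0 : β) : ∀ l : List γ,
    Run F b0 l (l.tails.map (fun t => t.foldr F b0)) := by
  intro l
  induction l with
  | nil => simp [Run]
  | cons c l ih =>
    refine ⟨(c :: l).foldr F b0, l.tails.map (fun t => t.foldr F b0), ?_, ?_, ih⟩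
    · rw [List.tails_cons, List.map_cons]
    · rw [run_head ih, List.foldr_cons]
      rfl

/-- a fold of a function of the level is a function of the level, if the intermediate values have
polynomially bounded sizes -/
theorem fFoldr [TDec α] [TDec β] [TDec γ] {l : α → List γ} (hl : Poly l)
    {F : γ → β → β} (hF : CFn (SigmaP (k + 1)) (fun q : γ × β => F q.1 q.2)) {b0 : β}
    (ρ : Polynomial ℕ) (hρ : ∀ a, ∀ t ∈ (l a).tails, sz (t.foldr F b0) ≤ ρ.eval (sz a)) :
    CFn (SigmaP (k + 1)) (fun a => (l a).foldr F b0) := by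
  obtain ⟨r, hr⟩ := hl.sz_le
  refine ⟨⟨ρ, fun a => hρ a _ ?_⟩, ?_⟩
  · rw [List.mem_tails]
  -- the predicate on the list of intermediate values
  have h1 : CPr (SigmaP (k + 1)) (fun s : ((α × β) × List β) × (γ × (β × β)) =>
      F s.2.1 s.2.2.2 = s.2.2.1) :=
    sComp hF.2 (f := fun s : ((α × β) × List β) × (γ × (β × β)) => ((s.2.1, s.2.2.2), s.2.2.1))
      (NPC.Poly.pair (NPC.Poly.pair (NPC.Poly.fst (NPC.Poly.snd NPC.Poly.id))
        (NPC.Poly.snd (NPC.Poly.snd (NPC.Poly.snd NPC.Poly.id))))
        (NPC.Poly.fst (NPC.Poly.snd (NPC.Poly.snd NPC.Poly.id))))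
  have p0 : Poly (fun q : (α × β) × List β => l q.1.1) :=
    hl.comp (NPC.Poly.fst (NPC.Poly.fst NPC.Poly.id))
  have p1 : Poly (fun q : (α × β) × List β => q.2) := NPC.Poly.snd NPC.Poly.id
  have h2 := sAllMem (l := fun q : (α × β) × List β => (l q.1.1).zip (q.2.zip q.2.tail))
    (NPC.Poly.zip p0 (NPC.Poly.zip p1 (NPC.Poly.tail p1))) h1
  have h3 : CPr (SigmaP (k + 1)) (fun q : (α × β) × List β =>
      decide (q.2.length = (l q.1.1).length + 1) = true) :=
    sPoly (NPC.Poly.decide_eq (NPC.Poly.length p1) (NPC.Poly.succ (NPC.Poly.length p0)))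
  have h4 : CPr (SigmaP (k + 1)) (fun q : (α × β) × List β =>
      decide (obits q.2.reverse.head? = obits (some b0)) = true) :=
    sPoly (NPC.Poly.decide_eq (obits_poly.comp (NPC.Poly.head? (NPC.Poly.reverse p1)))
      (NPC.Poly.const _))
  have h5 : CPr (SigmaP (k + 1)) (fun q : (α × β) × List β =>
      decide (obits q.2.head? = obits (some q.1.2)) = true) :=
    sPoly (NPC.Poly.decide_eq (obits_poly.comp (NPC.Poly.head? p1))
      (obits_poly.comp (NPC.Poly.some (NPC.Poly.snd (NPC.Poly.fst NPC.Poly.id)))))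
  have hob : ∀ o o' : Option β, (∃ b, o' = some b) → obits o = obits o' → o = o' := by
    rintro o _ ⟨b, rfl⟩ h
    cases o with
    | none =>
      exfalso
      have h' : bits b = [] := h.symm
      have h6 := sz_pos b
      rw [← bits_length, h'] at h6
      exact absurd h6 (by simp)
    | some b' => exact congrArg some (bits_injective h)
  refine (sEx (sAnd h5 (sAnd h3 (sAnd h4 h2)))
    ((r + 1) * (ρ + 1) + 1)).congr fun q => ?_
  obtain ⟨a, y⟩ := q
  constructor
  · rintro ⟨ys, _, e1, e2, e3, e4⟩
    rw [decide_eq_true_eq] at e1 e2 e3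
    have h6 : Run F b0 (l a) ys := (run_iff F b0 _ _).2 ⟨e2, hob _ _ ⟨_, rfl⟩ e3, e4⟩
    have h7 := run_head h6
    rw [hob _ _ ⟨_, rfl⟩ e1, Option.some.injEq] at h7
    exact h7.symm
  · intro h
    change (l a).foldr F b0 = y at h
    have h6 := run_tails F b0 (l a)
    obtain ⟨e1, e2, e3⟩ := (run_iff F b0 _ _).1 h6
    refine ⟨_, ?_, ?_, ?_, ?_, e3⟩
    · refine (sz_le_length_mul _ (ρ.eval (sz a)) ?_).trans ?_
      · intro c hc
        obtain ⟨t, ht, rfl⟩ := List.mem_map.1 hc
        exact hρ a t ht
      · rw [List.length_map, List.length_tails]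
        simp only [Polynomial.eval_add, Polynomial.eval_mul, Polynomial.eval_one]
        have h7 := length_lt_sz (l a)
        have h8 := (hr a).trans (eval_mono r (show sz a ≤ sz (a, y) by rw [sz_pair]; omega))
        have h9 := eval_mono ρ (show sz a ≤ sz (a, y) by rw [sz_pair]; omega)
        have h10 : (l a).length + 1 ≤ r.eval (sz (a, y)) + 1 := by omega
        exact Nat.succ_le_succ (Nat.mul_le_mul h10 (Nat.succ_le_succ h9))
    · rw [decide_eq_true_eq, run_head h6, h]
    · rw [decide_eq_true_eq]
      exact e1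
    · rw [decide_eq_true_eq, e2]

end

end Pool.Agent.Y596.GI
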