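import Pool.Agent.Y596.GI.Levels

/-!
# The group of the polynomial-time permutations, and the main theorem
-/

set_option autoImplicit false

namespace Pool.Agent.Y596.GI

open Pool.Agent.NPC Pool.Agent.H251R5.PQ Pool.Agent.W901.AT Pool.Agent.H579R2.Spt
open Pool.Agent.NPC.PIso
open Pool.Agent.W901.NU Pool.Agent.W901.PX
open Pool.Agent.W903.GP (InPH SigmaP sigma_props sigma_ex sigma_succ sigma_mono u1 u2 u1_pair
  u2_pair poly_u1 poly_u2 pid inP_iff graph mem_graph Nice nice_sigma c_graph_poly c_graph_comp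
  c_graph_inv isPair poly_isPair isPair_pairBits graph_eq inP_compl)

/-- The permutations of the set of bit strings which are computable in polynomial time together
with their inverse and which change the lengths by a bounded amount. -/
def Bdd0 : Subgroup (Equiv.Perm (List Bool)) where
  carrier := {f | (∃ c : ℕ, ∀ x, (f x).length ≤ x.length + c ∧ (f⁻¹ x).length ≤ x.length + c) ∧
    PolyTime ⇑f ∧ PolyTime ⇑f⁻¹}
  mul_mem' := by
    rintro a b ⟨⟨c, ha⟩, ha1, ha2⟩ ⟨⟨d, hb⟩, hb1, hb2⟩
    refine ⟨⟨c + d, fun x => ⟨?_, ?_⟩⟩, ?_, ?_⟩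
    · rw [Equiv.Perm.mul_apply]
      have := (ha (b x)).1
      have := (hb x).1
      omega
    · rw [mul_inv_rev, Equiv.Perm.mul_apply]
      have := (hb (a⁻¹ x)).2
      have := (ha x).2
      omega
    · have := (poly_iff.2 ha1).comp (poly_iff.2 hb1)
      exact poly_iff.1 this
    · have := (poly_iff.2 hb2).comp (poly_iff.2 ha2)
      rw [mul_inv_rev]
      exact poly_iff.1 this
  one_mem' := ⟨⟨0, fun x => ⟨le_rfl, le_rfl⟩⟩, poly_iff.1 Pool.Agent.NPC.Poly.id,
    poly_iff.1 Pool.Agent.NPC.Poly.id⟩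
  inv_mem' := by
    rintro a ⟨⟨c, ha⟩, ha1, ha2⟩
    exact ⟨⟨c, fun x => ⟨(ha x).2, by rw [inv_inv]; exact (ha x).1⟩⟩, ha2, by
      rw [inv_inv]; exact ha1⟩

theorem full_bdd0 : Full Bdd0 := fun a b =>
  ⟨⟨a.length + b.length, fun x => ⟨swap_length a b x, by
    rw [Equiv.swap_inv]; exact swap_length a b x⟩⟩, poly_iff.1 (poly_swap a b), by
    rw [Equiv.swap_inv]; exact poly_iff.1 (poly_swap a b)⟩

theorem mvE_mem0 (b p : Bool) : mvE b p ∈ Bdd0 :=
  ⟨⟨1, fun x => ⟨mv_length b p x, mv_length b p x⟩⟩, poly_iff.1 (poly_mv b p),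
    poly_iff.1 (poly_mv b p)⟩

/-- a predicate which is in the level together with its complement is decidable in polynomial time,
if the level and its complements have only the sets in `P` in common -/
theorem poly_of_delta {k : ℕ} (hP : ∀ L : Set (List Bool), SigmaP k L → SigmaP k Lᶜ → InP L)
    {α : Type} [TEnc α] [TDec α] {Q : α → Prop} (h : CPr (SigmaP k) Q)
    (h' : CPr (SigmaP k) (fun a => ¬ Q a)) : ∃ d : α → Bool, Poly d ∧ ∀ a, Q a ↔ d a = true := by
  have h1 := sTo_raw (sPart (P := Q) (f := fun x : List Bool => unbits α x) h poly_unbits)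
  have h2 := sPart (P := fun a => ¬ Q a) (f := fun x : List Bool => unbits α x) h' poly_unbits
  have h3 : CPr (SigmaP k) (fun x : List Bool => (!(unbits α x).isSome) = true) := by
    refine sPoly (NPC.Poly.not ?_)
    refine (NPC.Poly.optCases (o := fun x : List Bool => unbits α x) (g := fun _ => false)
      (h := fun _ _ => true) poly_unbits (NPC.Poly.const _) (NPC.Poly.const _)).congr fun x => ?_
    cases unbits α x <;> rfl
  have h4 := sTo_raw (sOr h2 h3)
  have e : {x : List Bool | (∃ b, unbits α x = some b ∧ ¬ Q b) ∨ (!(unbits α x).isSome) = true} =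
      {x : List Bool | ∃ b, unbits α x = some b ∧ Q b}ᶜ := by
    ext x
    simp only [Set.mem_ofPred_eq, Set.mem_compl_iff, not_exists, not_and]
    cases hx : unbits α x with
    | none => simp
    | some b => simp
  rw [e] at h4
  obtain ⟨d, hd, hd'⟩ := inP_iff.1 (hP _ h1 h4)
  refine ⟨fun a => d (bits a), hd.comp bits_poly, fun a => ?_⟩
  rw [← hd', Set.mem_ofPred_eq, unbits_bits]
  constructor
  · intro hq
    exact ⟨a, rfl, hq⟩
  · rintro ⟨b, hb, hq⟩
    rw [Option.some.injEq] at hb
    rw [hb]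
    exact hq

theorem list_of_range {y : List Bool} {m : ℕ} (h : y.length ≤ m) :
    ((List.range m).filter (fun i => decide (i < y.length))).map
      (fun i => decide (y[i]? = some true)) = y := by
  obtain ⟨d, rfl⟩ := Nat.exists_eq_add_of_le h
  have h1 : (List.range (y.length + d)).filter (fun i => decide (i < y.length)) =
      List.range y.length := by
    rw [List.range_add, List.filter_append]
    have e1 : (List.range y.length).filter (fun i => decide (i < y.length)) =
        List.range y.length := by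
      rw [List.filter_eq_self]
      intro i hi
      rw [decide_eq_true_eq]
      exact List.mem_range.1 hi
    have e2 : ((List.range d).map (y.length + ·)).filter (fun i => decide (i < y.length)) = [] := by
      rw [List.filter_eq_nil_iff]
      intro i hi
      obtain ⟨j, _, rfl⟩ := List.mem_map.1 hi
      simp
    rw [e1, e2, List.append_nil]
  rw [h1]
  apply List.ext_getElem
  · simp
  · intro i h2 h3
    rw [List.getElem_map, List.getElem_range, List.getElem?_eq_getElem h3]
    cases y[i] <;> rfl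

/-- functions of the level with a bounded change of length are computable in polynomial time, if
the level and its complements have only the sets in `P` in common -/
theorem poly_of_cfn {k : ℕ}
    (hP : ∀ L : Set (List Bool), SigmaP (k + 1) L → SigmaP (k + 1) Lᶜ → InP L)
    {f : List Bool → List Bool} {c : ℕ} (hc : ∀ x, (f x).length ≤ x.length + c)
    (hf : CFn (SigmaP (k + 1)) f) : Poly f := by
  have hf1 : CFn (SigmaP (k + 1)) (fun q : List Bool × ℕ => f q.1) :=
    fCompPoly hf (NPC.Poly.fst NPC.Poly.id)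
  have p1 : Poly (fun s : (List Bool × ℕ) × List Bool => s.2[s.1.2]?) :=
    NPC.Poly.getElem? (NPC.Poly.snd NPC.Poly.id) (NPC.Poly.snd (NPC.Poly.fst NPC.Poly.id))
  have p2 : Poly (fun s : (List Bool × ℕ) × List Bool => decide (s.2[s.1.2]? = some true)) :=
    NPC.Poly.decide_eq p1 (NPC.Poly.const _)
  have p3 : Poly (fun s : (List Bool × ℕ) × List Bool => decide (s.1.2 < s.2.length)) :=
    NPC.Poly.decide_lt (NPC.Poly.snd (NPC.Poly.fst NPC.Poly.id))
      (NPC.Poly.length (NPC.Poly.snd NPC.Poly.id))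
  obtain ⟨d1, hd1, hd1'⟩ := poly_of_delta hP
    (Q := fun q : List Bool × ℕ => (f q.1)[q.2]? = some true)
    ((sSubst hf1 (P := fun s => decide (s.2[s.1.2]? = some true) = true) (sPoly p2)).congr
      fun q => by rw [decide_eq_true_eq])
    ((sSubst hf1 (P := fun s => (!decide (s.2[s.1.2]? = some true)) = true)
      (sPoly (NPC.Poly.not p2))).congr fun q => by
        rw [Bool.not_eq_true', decide_eq_false_iff_not])
  obtain ⟨d2, hd2, hd2'⟩ := poly_of_delta hP
    (Q := fun q : List Bool × ℕ => q.2 < (f q.1).length)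
    ((sSubst hf1 (P := fun s => decide (s.1.2 < s.2.length) = true) (sPoly p3)).congr
      fun q => by rw [decide_eq_true_eq])
    ((sSubst hf1 (P := fun s => (!decide (s.1.2 < s.2.length)) = true)
      (sPoly (NPC.Poly.not p3))).congr fun q => by
        rw [Bool.not_eq_true', decide_eq_false_iff_not])
  have hr : Poly (fun x : List Bool => List.range (x.length + c)) :=
    (NPC.Poly.range_length (l := fun x : List Bool => x ++ List.replicate c false)
      (NPC.Poly.append NPC.Poly.id (NPC.Poly.const _))).congr fun x => by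
        rw [List.length_append, List.length_replicate]
  refine (NPC.Poly.map (F := fun x i => d1 (x, i))
    (NPC.Poly.filter (p := fun x i => d2 (x, i)) hr hd2) hd1).congr fun x => ?_
  have e := list_of_range (hc x)
  conv_rhs => rw [← e]
  have e1 : (fun i => d2 (x, i)) = fun i => decide (i < (f x).length) := by
    funext i
    rw [Bool.eq_iff_iff, ← hd2', decide_eq_true_eq]
  have e2 : (fun i => d1 (x, i)) = fun i => decide ((f x)[i]? = some true) := by
    funext i
    rw [Bool.eq_iff_iff, ← hd1', decide_eq_true_eq]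
  rw [e1, e2]

/-- the two groups are equal, if the level and its complements have only the sets in `P` in
common -/
theorem bdd0_eq {k : ℕ}
    (hP : ∀ L : Set (List Bool), SigmaP (k + 1) L → SigmaP (k + 1) Lᶜ → InP L) :
    Bdd0 = Bdd (SigmaP (k + 1)) (nice_sigma k) := by
  refine le_antisymm ?_ ?_
  · rintro f ⟨hc, h1, _⟩
    exact ⟨hc, c_graph_poly (nice_sigma k) (poly_iff.2 h1)⟩
  · rintro f ⟨⟨c, hc⟩, h1⟩
    have h2 := c_graph_inv (nice_sigma k) h1
    refine ⟨⟨c, hc⟩, poly_iff.1 (poly_of_cfn hP (fun x => (hc x).1) (cfn_of_graph h1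
      (ρ := Polynomial.X + Polynomial.C c) fun x => ?_)), poly_iff.1 (poly_of_cfn hP
      (fun x => (hc x).2) (cfn_of_graph h2 (ρ := Polynomial.X + Polynomial.C c) fun x => ?_))⟩
    · simpa only [Polynomial.eval_add, Polynomial.eval_X, Polynomial.eval_C] using (hc x).1
    · simpa only [Polynomial.eval_add, Polynomial.eval_X, Polynomial.eval_C] using (hc x).2

/-- the conjugating permutation is computable in polynomial time -/
theorem poly_moves {ψ : List Bool → List Bool}
    {N : Bool → Bool → List Bool → List Bool} {c : ℕ}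
    (hc : ∀ b p x, (N b p x).length ≤ x.length + c)
    (hψ : ∀ b x, ψ (b :: x) = N b (par x) (ψ x))
    (hN : ∀ b p, Poly (N b p)) : Poly ψ := by
  have hstep : Poly (fun q : List Bool × Bool × (Bool × List Bool) =>
      (!q.2.2.1, N q.2.1 q.2.2.1 q.2.2.2)) := by
    have e1 : Poly (fun q : List Bool × Bool × (Bool × List Bool) => q.2.1) :=
      NPC.Poly.fst (NPC.Poly.snd NPC.Poly.id)
    have e2 : Poly (fun q : List Bool × Bool × (Bool × List Bool) => q.2.2.1) :=
      NPC.Poly.fst (NPC.Poly.snd (NPC.Poly.snd NPC.Poly.id))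
    have e3 : Poly (fun q : List Bool × Bool × (Bool × List Bool) => q.2.2.2) :=
      NPC.Poly.snd (NPC.Poly.snd (NPC.Poly.snd NPC.Poly.id))
    refine NPC.Poly.pair (NPC.Poly.not e2) ?_
    refine (NPC.Poly.cond e1
      (NPC.Poly.cond e2 ((hN true true).comp e3) ((hN true false).comp e3))
      (NPC.Poly.cond e2 ((hN false true).comp e3) ((hN false false).comp e3))).congr fun q => ?_
    obtain ⟨_, b, p, x⟩ := q
    cases b <;> cases p <;> rfl
  have h1 := NPC.Poly.foldr (l := fun x : List Bool => x)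
    (s := fun _ => ((false, ψ []) : Bool × List Bool))
    (F := fun _ b s => (!s.1, N b s.1 s.2)) NPC.Poly.id (NPC.Poly.const _) hstep
    (Polynomial.C 4 * (Polynomial.C (ψ []).length + Polynomial.C c * Polynomial.X) + 5)
    (fun a k _ => by
      rw [foldr_moves hψ, sz_pair]
      have e1 := sz_bool_le (par (a.drop k))
      have e2 := sz_listBool_le (ψ (a.drop k))
      have e3 := length_of_moves hc hψ (a.drop k)
      have e4 : (a.drop k).length ≤ a.length := by rw [List.length_drop]; omega
      have e5 := length_lt_sz a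
      have e6 : c * (a.drop k).length ≤ c * sz a := Nat.mul_le_mul_left _ (by omega)
      simp only [Polynomial.eval_add, Polynomial.eval_mul, Polynomial.eval_C,
        Polynomial.eval_X, Polynomial.eval_ofNat]
      omega)
  exact (NPC.Poly.snd h1).congr fun x => by
    rw [foldr_moves hψ]

/-- **Main lemma**, for polynomial time. -/
theorem inP_of_iso {k : ℕ} (Φ : Bdd (SigmaP (k + 1)) (nice_sigma k) ≃* Bdd0)
    {L : Set (List Bool)} (h : SigmaP (k + 1) L) (h' : SigmaP (k + 1) Lᶜ) : InP L := by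
  obtain ⟨φ, hφ⟩ := exists_conj (full_bdd _ (nice_sigma k)) full_bdd0 Φ
  have tr : ∀ (f : Equiv.Perm (List Bool)) (hf : f ∈ Bdd (SigmaP (k + 1)) (nice_sigma k)) x,
      ((Φ ⟨f, hf⟩ : Bdd0) : Equiv.Perm (List Bool)) (φ x) = φ (f x) := by
    intro f hf x
    rw [hφ]
    show φ (f (φ.symm (φ x))) = _
    rw [φ.symm_apply_apply]
  have hb : ∀ b p, ∃ c : ℕ, ∀ x, (((Φ ⟨mvE b p, mvE_mem _ _ b p⟩ :
      Bdd0) : Equiv.Perm (List Bool)) x).length ≤ x.length + c := by
    intro b p
    obtain ⟨⟨c, hc⟩, _⟩ := (Φ ⟨mvE b p, mvE_mem _ _ b p⟩).2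
    exact ⟨c, fun x => (hc x).1⟩
  choose c hc using hb
  set N : Bool → Bool → List Bool → List Bool := fun b p =>
    ⇑((Φ ⟨mvE b p, mvE_mem _ _ b p⟩ : Bdd0) : Equiv.Perm (List Bool)) with hN
  have h1 : Poly ⇑φ := by
    refine poly_moves (N := N) (c := c false false + c false true + c true false + c true true)
      (fun b p x => ?_) (fun b x => ?_)
      (fun b p => poly_iff.2 (Φ ⟨mvE b p, mvE_mem _ _ b p⟩).2.2.1)
    · have := hc b p x
      rw [hN]
      cases b <;> cases p <;> simp only <;> omega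
    · rw [hN]
      simp only
      rw [tr, mvE_apply]
  have h2 : Poly ⇑((Φ ⟨flE L, flE_mem h h'⟩ : Bdd0) : Equiv.Perm (List Bool)) :=
    poly_iff.2 (Φ ⟨flE L, flE_mem h h'⟩).2.2.1
  have q1 : Poly (fun x : List Bool => φ (false :: x)) :=
    h1.comp (NPC.Poly.cons (NPC.Poly.const false) NPC.Poly.id)
  have q2 : Poly (fun x : List Bool => φ (true :: x)) :=
    h1.comp (NPC.Poly.cons (NPC.Poly.const true) NPC.Poly.id)
  refine inP_iff.2 ⟨_, NPC.Poly.decide_eq (h2.comp q1) q2, fun x => ?_⟩
  rw [decide_eq_true_eq, tr, φ.injective.eq_iff]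
  exact fl_iff L x

/-- The groups: level `0` is polynomial time. -/
def Grp : ℕ → Subgroup (Equiv.Perm (List Bool))
  | 0 => Bdd0
  | k + 1 => Bdd (SigmaP (k + 1)) (nice_sigma k)

/-- The sets which are in the level together with their complement. -/
def Dlt (k : ℕ) (L : Set (List Bool)) : Prop := SigmaP k L ∧ SigmaP k Lᶜ

theorem dlt_zero {k : ℕ} {L : Set (List Bool)} (h : InP L) : Dlt k L :=
  ⟨sigma_mono (Nat.zero_le k) (show SigmaP 0 L from h),
    sigma_mono (Nat.zero_le k) (show SigmaP 0 Lᶜ from inP_compl h)⟩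

theorem dlt_of_iso {j k : ℕ} (Φ : Grp k ≃* Grp j) {L : Set (List Bool)} (h : Dlt k L) :
    Dlt j L := by
  have hc : Dlt k Lᶜ := ⟨h.2, by rw [compl_compl]; exact h.1⟩
  cases k with
  | zero => exact dlt_zero h.1
  | succ k =>
    cases j with
    | zero => exact ⟨inP_of_iso Φ h.1 h.2, inP_of_iso Φ hc.1 hc.2⟩
    | succ j => exact ⟨sigma_of_iso Φ h.1 h.2, sigma_of_iso Φ hc.1 hc.2⟩

/-- if the complements of the sets of a level are in the level, the level contains all higher
levels -/
theorem sigma_collapse {j : ℕ} (h : ∀ L : Set (List Bool), SigmaP (j + 1) L → SigmaP (j + 1) Lᶜ) :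
    ∀ k, ∀ L : Set (List Bool), SigmaP k L → SigmaP (j + 1) L := by
  intro k
  induction k with
  | zero => exact fun L hL => sigma_mono (Nat.zero_le _) hL
  | succ k ih =>
    rintro L ⟨M, p, hM, hL⟩
    have h1 := sigma_ex j p (h M (ih M hM))
    have e : L = {x | ∃ w : List Bool, w.length ≤ p.eval x.length ∧ pairBits x w ∈ Mᶜ} :=
      Set.ext fun x => hL x
    rw [e]
    exact h1

theorem grp_eq_of_lt {j k : ℕ} (hjk : j < k) (h : ∀ L, Dlt k L → Dlt j L) : Grp j = Grp k := by
  cases k with
  | zero => omega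
  | succ k =>
    cases j with
    | zero => exact bdd0_eq fun L h1 h2 => (h L ⟨h1, h2⟩).1
    | succ j =>
      have h1 : ∀ L : Set (List Bool), SigmaP (j + 1) L → SigmaP (j + 1) Lᶜ := fun L hL =>
        (h L ⟨sigma_mono (by omega) hL,
          sigma_mono (show j + 2 ≤ k + 1 by omega) (sigma_compl hL)⟩).2
      have h2 := sigma_collapse h1 (k + 1)
      refine le_antisymm ?_ ?_
      · rintro f ⟨hc, hf⟩
        exact ⟨hc, sigma_mono (by omega) hf⟩
      · rintro f ⟨hc, hf⟩
        exact ⟨hc, h2 _ hf⟩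

/-- **The isomorphism theorem.** -/
theorem iso_iff (j k : ℕ) : Nonempty (Grp j ≃* Grp k) ↔ ∀ L, Dlt j L ↔ Dlt k L := by
  constructor
  · rintro ⟨Φ⟩ L
    exact ⟨fun h => dlt_of_iso Φ h, fun h => dlt_of_iso Φ.symm h⟩
  · intro h
    rcases lt_trichotomy j k with hjk | rfl | hjk
    · rw [grp_eq_of_lt hjk fun L => (h L).2]
      exact ⟨MulEquiv.refl _⟩
    · exact ⟨MulEquiv.refl _⟩
    · rw [grp_eq_of_lt hjk fun L => (h L).1]
      exact ⟨MulEquiv.refl _⟩

/-- strictness of the hierarchy in terms of the groups -/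
theorem strict_iff : (∀ k, ∃ L, SigmaP (k + 1) L ∧ ¬ SigmaP k L) ↔
    ∀ j k, 1 ≤ j → j < k → IsEmpty (Grp j ≃* Grp k) := by
  constructor
  · intro h j k hj hjk
    by_contra hne
    rw [not_isEmpty_iff, iso_iff] at hne
    obtain ⟨j, rfl⟩ := Nat.exists_eq_add_of_le' hj
    obtain ⟨L, h1, h2⟩ := h (j + 1)
    refine h2 (sigma_collapse (fun M hM => ?_) (j + 2) L h1)
    exact ((hne M).2 ⟨sigma_mono (by omega) hM,
      sigma_mono (show j + 2 ≤ k by omega) (sigma_compl hM)⟩).2
  · intro h
    by_contra hc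
    push Not at hc
    obtain ⟨k, hk⟩ := hc
    have h1 : ∀ L, SigmaP (k + 2) L → SigmaP (k + 1) L := by
      rintro L ⟨M, p, hM, hL⟩
      exact ⟨M, p, hk M hM, hL⟩
    have h3 : ∀ L, SigmaP (k + 1) L ↔ SigmaP (k + 2) L := fun L => ⟨sigma_succ, h1 L⟩
    refine (h (k + 1) (k + 2) (by omega) (by omega)).false
      ((iso_iff (k + 1) (k + 2)).2 fun L => ?_).some
    exact and_congr (h3 L) (h3 Lᶜ)

end Pool.Agent.Y596.GI
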