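import Mathlib

/-!
# Isomorphisms between groups of permutations which contain all transpositions

Let `G` and `H` be groups of permutations of an infinite set which contain all transpositions. Then
every isomorphism from `G` to `H` is the conjugation by a permutation of the set.
-/

set_option autoImplicit false

namespace Pool.Agent.Y596.GI

open Equiv

variable {α : Type} [DecidableEq α]

/-- the group contains all transpositions -/
def Full (G : Subgroup (Perm α)) : Prop := ∀ a b : α, swap a b ∈ G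

/-- conjugates of `t` and `t` generate small dihedral groups -/
def Trans3 (G : Subgroup (Perm α)) (t : Perm α) : Prop :=
  t ≠ 1 ∧ t * t = 1 ∧ ∀ g ∈ G, (t * (g * t * g⁻¹)) * (t * (g * t * g⁻¹)) = 1 ∨
    (t * (g * t * g⁻¹)) * (t * (g * t * g⁻¹)) * (t * (g * t * g⁻¹)) = 1

omit [DecidableEq α] in
theorem conj_apply {g t : Perm α} {a b c d : α} (h1 : g c = a) (h2 : t c = d) (h3 : g d = b) :
    (g * t * g⁻¹) a = b := by
  rw [Perm.mul_apply, Perm.mul_apply, ← h1]
  show g (t (g.symm (g c))) = b
  rw [g.symm_apply_apply, h2, h3]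

omit [DecidableEq α] in
theorem exists_ne5 [Infinite α] (s : Finset α) : ∃ x, x ∉ s := Infinite.exists_notMem_finset s

theorem swap_of_trans3 [Infinite α] {G : Subgroup (Perm α)} (hG : Full G) {t : Perm α}
    (h : Trans3 G t) : ∃ a b, a ≠ b ∧ t = swap a b := by
  obtain ⟨h1, h2, h3⟩ := h
  have htt : ∀ x, t (t x) = x := fun x => by
    have := congrArg (fun e : Perm α => e x) h2
    simpa using this
  obtain ⟨a, ha⟩ : ∃ a, t a ≠ a := by
    by_contra hc
    push Not at hc
    exact h1 (Equiv.ext hc)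
  refine ⟨a, t a, ha.symm, ?_⟩
  by_contra hne
  obtain ⟨c, hc1, hc2⟩ : ∃ c, t c ≠ swap a (t a) c ∧ True := by
    by_contra hcon
    push Not at hcon
    exact hne (Equiv.ext fun x => by
      by_contra hx
      exact hcon x hx)
  have hca : c ≠ a := by
    rintro rfl
    exact hc1 (by rw [swap_apply_left])
  have hcb : c ≠ t a := by
    rintro rfl
    exact hc1 (by rw [swap_apply_right, htt])
  have hcc : t c ≠ c := by
    intro hh
    exact hc1 (by rw [swap_apply_of_ne_of_ne hca hcb, hh])
  set b := t a with hb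
  set d := t c with hd
  have tb : t b = a := htt a
  have td : t d = c := htt c
  have hda : d ≠ a := by
    intro hh
    apply hcb
    rw [hb, ← hh, td]
  have hdb : d ≠ b := by
    intro hh
    apply hca
    rw [← td, hh, tb]
  by_cases hfix : ∃ e, t e = e
  · obtain ⟨e, he⟩ := hfix
    have hea : e ≠ a := by rintro rfl; exact ha he
    have heb : e ≠ b := by rintro rfl; rw [tb] at he; exact ha he.symm
    have hec : e ≠ c := by rintro rfl; exact hcc he
    have hed : e ≠ d := by rintro rfl; rw [td] at he; exact hcc he.symm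
    -- the five-cycle a → b → c → d → e → a
    set g : Perm α := swap a b * (swap b c * (swap c d * swap d e)) with hg
    have gG : g ∈ G := mul_mem (hG _ _) (mul_mem (hG _ _) (mul_mem (hG _ _) (hG _ _)))
    have ga : g a = b := by
      simp only [hg, Perm.mul_apply]
      rw [swap_apply_of_ne_of_ne hda.symm hea.symm, swap_apply_of_ne_of_ne hca.symm hda.symm,
        swap_apply_of_ne_of_ne ha.symm hca.symm, swap_apply_left]
    have gb : g b = c := by
      simp only [hg, Perm.mul_apply]
      rw [swap_apply_of_ne_of_ne hdb.symm heb.symm, swap_apply_of_ne_of_ne hcb.symm hdb.symm,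
        swap_apply_left, swap_apply_of_ne_of_ne hca hcb]
    have gc : g c = d := by
      simp only [hg, Perm.mul_apply]
      rw [swap_apply_of_ne_of_ne hcc.symm hec.symm, swap_apply_left,
        swap_apply_of_ne_of_ne hdb hcc, swap_apply_of_ne_of_ne hda hdb]
    have gd : g d = e := by
      simp only [hg, Perm.mul_apply]
      rw [swap_apply_left, swap_apply_of_ne_of_ne hec hed, swap_apply_of_ne_of_ne heb hec,
        swap_apply_of_ne_of_ne hea heb]
    have ge : g e = a := by
      simp only [hg, Perm.mul_apply]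
      rw [swap_apply_right, swap_apply_right, swap_apply_right, swap_apply_right]
    have sb : (g * t * g⁻¹) b = c := conj_apply ga hb.symm gb
    have sc : (g * t * g⁻¹) c = b := conj_apply gb tb ga
    have sd : (g * t * g⁻¹) d = e := conj_apply gc hd.symm gd
    have se : (g * t * g⁻¹) e = d := conj_apply gd td gc
    have sa : (g * t * g⁻¹) a = a := conj_apply ge he ge
    have r1 : (t * (g * t * g⁻¹)) b = d := by rw [Perm.mul_apply, sb]
    have r2 : (t * (g * t * g⁻¹)) d = e := by rw [Perm.mul_apply, sd, he]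
    have r3 : (t * (g * t * g⁻¹)) e = c := by rw [Perm.mul_apply, se, td]
    rcases h3 g gG with h4 | h4
    · have h5 := congrArg (fun e : Perm α => e b) h4
      simp only [Perm.mul_apply (t * (g * t * g⁻¹)), r1, r2, Perm.one_apply] at h5
      exact heb h5
    · have h5 := congrArg (fun e : Perm α => e b) h4
      rw [Perm.mul_apply, Perm.mul_apply, r1, r2, r3, Perm.one_apply] at h5
      exact hcb h5
  · push Not at hfix
    -- four pairs
    obtain ⟨a3, ha3⟩ := exists_ne5 ({a, b, c, d} : Finset α)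
    simp only [Finset.mem_insert, Finset.mem_singleton, not_or] at ha3
    obtain ⟨h3a, h3b, h3c, h3d⟩ := ha3
    set b3 := t a3 with hb3
    have tb3 : t b3 = a3 := htt a3
    obtain ⟨a4, ha4⟩ := exists_ne5 ({a, b, c, d, a3, b3} : Finset α)
    simp only [Finset.mem_insert, Finset.mem_singleton, not_or] at ha4
    obtain ⟨h4a, h4b, h4c, h4d, h4e, h4f⟩ := ha4
    set b4 := t a4 with hb4
    have tb4 : t b4 = a4 := htt a4
    have e33 : b3 ≠ a3 := hfix a3
    have e44 : b4 ≠ a4 := hfix a4
    have f1 : b3 ≠ a := by intro hh; apply h3b; rw [hb, ← hh, tb3]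
    have f2 : b3 ≠ b := by intro hh; apply h3a; rw [← tb, ← hh, tb3]
    have f3 : b3 ≠ c := by intro hh; apply h3d; rw [hd, ← hh, tb3]
    have f4 : b3 ≠ d := by intro hh; apply h3c; rw [← td, ← hh, tb3]
    have g1 : b4 ≠ a := by intro hh; apply h4b; rw [hb, ← hh, tb4]
    have g2 : b4 ≠ b := by intro hh; apply h4a; rw [← tb, ← hh, tb4]
    have g3 : b4 ≠ c := by intro hh; apply h4d; rw [hd, ← hh, tb4]
    have g4 : b4 ≠ d := by intro hh; apply h4c; rw [← td, ← hh, tb4]
    have g5 : b4 ≠ a3 := by intro hh; apply h4f; rw [hb3, ← hh, tb4]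
    have g6 : b4 ≠ b3 := by intro hh; apply h4e; rw [← tb3, ← hh, tb4]
    set g : Perm α := swap a b * (swap b c * (swap c d * (swap d a3 * (swap a3 b3 *
      (swap b3 a4 * swap a4 b4))))) with hg
    have gG : g ∈ G := mul_mem (hG _ _) (mul_mem (hG _ _) (mul_mem (hG _ _) (mul_mem (hG _ _)
      (mul_mem (hG _ _) (mul_mem (hG _ _) (hG _ _))))))
    have ga : g a = b := by
      simp only [hg, Perm.mul_apply]
      rw [swap_apply_of_ne_of_ne (Ne.symm h4a) g1.symm, swap_apply_of_ne_of_ne f1.symm
        (Ne.symm h4a), swap_apply_of_ne_of_ne (Ne.symm h3a) f1.symm,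
        swap_apply_of_ne_of_ne hda.symm (Ne.symm h3a), swap_apply_of_ne_of_ne hca.symm hda.symm,
        swap_apply_of_ne_of_ne ha.symm hca.symm, swap_apply_left]
    have gb : g b = c := by
      simp only [hg, Perm.mul_apply]
      rw [swap_apply_of_ne_of_ne (Ne.symm h4b) g2.symm, swap_apply_of_ne_of_ne f2.symm
        (Ne.symm h4b), swap_apply_of_ne_of_ne (Ne.symm h3b) f2.symm,
        swap_apply_of_ne_of_ne hdb.symm (Ne.symm h3b), swap_apply_of_ne_of_ne hcb.symm hdb.symm,
        swap_apply_left, swap_apply_of_ne_of_ne hca hcb]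
    have gc : g c = d := by
      simp only [hg, Perm.mul_apply]
      rw [swap_apply_of_ne_of_ne (Ne.symm h4c) g3.symm, swap_apply_of_ne_of_ne f3.symm
        (Ne.symm h4c), swap_apply_of_ne_of_ne (Ne.symm h3c) f3.symm,
        swap_apply_of_ne_of_ne hcc.symm (Ne.symm h3c), swap_apply_left,
        swap_apply_of_ne_of_ne hdb hcc, swap_apply_of_ne_of_ne hda hdb]
    have gd : g d = a3 := by
      simp only [hg, Perm.mul_apply]
      rw [swap_apply_of_ne_of_ne (Ne.symm h4d) g4.symm, swap_apply_of_ne_of_ne f4.symm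
        (Ne.symm h4d), swap_apply_of_ne_of_ne (Ne.symm h3d) f4.symm, swap_apply_left,
        swap_apply_of_ne_of_ne h3c h3d, swap_apply_of_ne_of_ne h3b h3c,
        swap_apply_of_ne_of_ne h3a h3b]
    have ga3 : g a3 = b3 := by
      simp only [hg, Perm.mul_apply]
      rw [swap_apply_of_ne_of_ne (Ne.symm h4e) g5.symm, swap_apply_of_ne_of_ne e33.symm
        (Ne.symm h4e), swap_apply_left, swap_apply_of_ne_of_ne f4 e33,
        swap_apply_of_ne_of_ne f3 f4, swap_apply_of_ne_of_ne f2 f3,
        swap_apply_of_ne_of_ne f1 f2]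
    have gb3 : g b3 = a4 := by
      simp only [hg, Perm.mul_apply]
      rw [swap_apply_of_ne_of_ne (Ne.symm h4f) g6.symm, swap_apply_left,
        swap_apply_of_ne_of_ne h4e h4f, swap_apply_of_ne_of_ne h4d h4e,
        swap_apply_of_ne_of_ne h4c h4d, swap_apply_of_ne_of_ne h4b h4c,
        swap_apply_of_ne_of_ne h4a h4b]
    have ga4 : g a4 = b4 := by
      simp only [hg, Perm.mul_apply]
      rw [swap_apply_left, swap_apply_of_ne_of_ne g6 e44, swap_apply_of_ne_of_ne g5 g6,
        swap_apply_of_ne_of_ne g4 g5, swap_apply_of_ne_of_ne g3 g4, swap_apply_of_ne_of_ne g2 g3,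
        swap_apply_of_ne_of_ne g1 g2]
    have gb4 : g b4 = a := by
      simp only [hg, Perm.mul_apply]
      rw [swap_apply_right, swap_apply_right, swap_apply_right, swap_apply_right,
        swap_apply_right, swap_apply_right, swap_apply_right]
    -- the second involution: b c, d a3, b3 a4, b4 a
    have sb : (g * t * g⁻¹) b = c := conj_apply ga hb.symm gb
    have sd : (g * t * g⁻¹) d = a3 := conj_apply gc hd.symm gd
    have sb3 : (g * t * g⁻¹) b3 = a4 := conj_apply ga3 hb3.symm gb3
    have sb4 : (g * t * g⁻¹) b4 = a := conj_apply ga4 hb4.symm gb4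
    have r1 : (t * (g * t * g⁻¹)) b = d := by rw [Perm.mul_apply, sb]
    have r2 : (t * (g * t * g⁻¹)) d = b3 := by rw [Perm.mul_apply, sd]
    have r3 : (t * (g * t * g⁻¹)) b3 = b4 := by rw [Perm.mul_apply, sb3]
    rcases h3 g gG with h4 | h4
    · have h5 := congrArg (fun e : Perm α => e b) h4
      simp only [Perm.mul_apply (t * (g * t * g⁻¹)), r1, r2, Perm.one_apply] at h5
      exact f2 h5
    · have h5 := congrArg (fun e : Perm α => e b) h4
      rw [Perm.mul_apply, Perm.mul_apply, r1, r2, r3, Perm.one_apply] at h5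
      exact g2 h5

/-- two transpositions commute, or satisfy the braid relation -/
theorem comm_or_braid (a b c d : α) : swap a b * swap c d = swap c d * swap a b ∨
    swap a b * swap c d * swap a b = swap c d * swap a b * swap c d := by
  have conj : ∀ (f : Perm α) (x y : α), f * swap x y * f⁻¹ = swap (f x) (f y) := fun f x y =>
    (swap_apply_apply f x y).symm
  have e1 : swap a b * swap c d * swap a b = swap (swap a b c) (swap a b d) := by
    have := conj (swap a b) c d
    rwa [swap_inv] at this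
  have e2 : swap c d * swap a b * swap c d = swap (swap c d a) (swap c d b) := by
    have := conj (swap c d) a b
    rwa [swap_inv] at this
  by_cases hab : a = b
  · left
    subst hab
    rw [swap_self]
    show (1 : Perm α) * _ = _ * (1 : Perm α)
    rw [one_mul, mul_one]
  by_cases hcd : c = d
  · left
    subst hcd
    rw [swap_self]
    show _ * (1 : Perm α) = (1 : Perm α) * _
    rw [one_mul, mul_one]
  by_cases hac : a = c
  · subst hac
    by_cases hbd : b = d
    · left; subst hbd; rfl
    · right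
      rw [e1, e2, swap_apply_left, swap_apply_of_ne_of_ne (Ne.symm hcd) (Ne.symm hbd),
        swap_apply_left, swap_apply_of_ne_of_ne (Ne.symm hab) hbd, swap_comm]
  by_cases had : a = d
  · subst had
    by_cases hbc : b = c
    · left; subst hbc; rw [swap_comm]
    · right
      rw [e1, e2, swap_apply_left, swap_apply_of_ne_of_ne hcd (Ne.symm hbc),
        swap_apply_right, swap_apply_of_ne_of_ne hbc (Ne.symm hab)]
  by_cases hbc : b = c
  · subst hbc
    right
    rw [e1, e2, swap_apply_right, swap_apply_of_ne_of_ne (Ne.symm had) (Ne.symm hcd),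
        swap_apply_left, swap_apply_of_ne_of_ne hab had]
  by_cases hbd : b = d
  · subst hbd
    right
    rw [e1, e2, swap_apply_right, swap_apply_of_ne_of_ne (Ne.symm hac) hcd,
        swap_apply_right, swap_apply_of_ne_of_ne hac hab, swap_comm]
  · left
    have h1 : swap a b c = c := swap_apply_of_ne_of_ne (Ne.symm hac) (Ne.symm hbc)
    have h2 : swap a b d = d := swap_apply_of_ne_of_ne (Ne.symm had) (Ne.symm hbd)
    rw [h1, h2] at e1
    calc swap a b * swap c d = swap a b * swap c d * (swap a b * swap a b) := by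
          rw [swap_mul_self, mul_one]
      _ = (swap a b * swap c d * swap a b) * swap a b := by simp only [mul_assoc]
      _ = swap c d * swap a b := by rw [e1]

omit [DecidableEq α] in
theorem pow_cases {s t : Perm α} (hs : s * s = 1) (ht : t * t = 1)
    (h : s * t = t * s ∨ s * t * s = t * s * t) : s * t * (s * t) = 1 ∨
      s * t * (s * t) * (s * t) = 1 := by
  rcases h with h | h
  · left
    calc s * t * (s * t) = s * (t * s) * t := by simp only [mul_assoc]
      _ = s * (s * t) * t := by rw [h]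
      _ = (s * s) * (t * t) := by simp only [mul_assoc]
      _ = 1 := by rw [hs, ht, one_mul]
  · right
    calc s * t * (s * t) * (s * t) = (s * t * s) * (t * s * t) := by simp only [mul_assoc]
      _ = (s * t * s) * (s * t * s) := by rw [h]
      _ = s * t * (s * s) * (t * s) := by simp only [mul_assoc]
      _ = s * (t * t) * s := by rw [hs, mul_one]; simp only [mul_assoc]
      _ = 1 := by rw [ht, mul_one, hs]

theorem trans3_swap (G : Subgroup (Perm α)) {a b : α} (hab : a ≠ b) : Trans3 G (swap a b) := by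
  refine ⟨fun h => hab ?_, swap_mul_self a b, fun g _ => ?_⟩
  · have := congrArg (fun e : Perm α => e a) h
    simpa using this.symm
  · rw [← swap_apply_apply g a b]
    exact pow_cases (swap_mul_self _ _) (swap_mul_self _ _) (comm_or_braid _ _ _ _)

/-- isomorphisms preserve the property of transpositions -/
theorem trans3_map {G H : Subgroup (Perm α)} (Φ : G ≃* H) {t : G} (h : Trans3 G (t : Perm α)) :
    Trans3 H (Φ t : Perm α) := by
  obtain ⟨h1, h2, h3⟩ := h
  have key : ∀ w : G, (w : Perm α) = 1 → ((Φ w : H) : Perm α) = 1 := by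
    intro w hw
    have : w = 1 := Subtype.ext hw
    rw [this, map_one]
    rfl
  refine ⟨fun h => h1 ?_, ?_, fun g hg => ?_⟩
  · have e1 : Φ t = 1 := Subtype.ext h
    have e2 : t = 1 := by rwa [map_eq_one_iff Φ Φ.injective] at e1
    rw [e2]
    rfl
  · have := key (t * t) h2
    rwa [map_mul] at this
  · obtain ⟨g', hg'⟩ := Φ.surjective ⟨g, hg⟩
    rcases h3 g' g'.2 with h4 | h4
    · left
      have := key ((t * (g' * t * g'⁻¹)) * (t * (g' * t * g'⁻¹))) h4
      simp only [map_mul, map_inv, hg'] at this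
      exact this
    · right
      have := key ((t * (g' * t * g'⁻¹)) * (t * (g' * t * g'⁻¹)) * (t * (g' * t * g'⁻¹))) h4
      simp only [map_mul, map_inv, hg'] at this
      exact this

theorem swap_eq_cases {a b c d : α} (hab : a ≠ b) (h : swap a b = swap c d) :
    (a = c ∧ b = d) ∨ (a = d ∧ b = c) := by
  have h1 : swap c d a = b := by rw [← h, swap_apply_left]
  by_cases hac : a = c
  · left
    refine ⟨hac, ?_⟩
    rw [hac, swap_apply_left] at h1
    exact h1.symm
  by_cases had : a = d
  · right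
    refine ⟨had, ?_⟩
    rw [had, swap_apply_right] at h1
    exact h1.symm
  · rw [swap_apply_of_ne_of_ne hac had] at h1
    exact absurd h1 hab

theorem swap_of_moved {c d p : α} (h : swap c d p ≠ p) : swap c d = swap p (swap c d p) := by
  by_cases hc : p = c
  · rw [hc, swap_apply_left]
  by_cases hd : p = d
  · rw [hd, swap_apply_right, swap_comm]
  · exact absurd (swap_apply_of_ne_of_ne hc hd) h

theorem swap_conj' {p q r : α} (hpr : p ≠ r) (hqr : q ≠ r) :
    swap p q * swap p r * swap p q = swap q r := by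
  have h := swap_apply_apply (swap p q) p r
  rw [swap_inv, swap_apply_left, swap_apply_of_ne_of_ne hpr.symm hqr.symm] at h
  exact h.symm

section star

variable [Infinite α] {G H : Subgroup (Perm α)} (hG : Full G) (hH : Full H) (Φ : G ≃* H)

include hH in
theorem image_swap {x w : α} (h : x ≠ w) :
    ∃ a b, a ≠ b ∧ ((Φ ⟨swap x w, hG x w⟩ : H) : Perm α) = swap a b :=
  swap_of_trans3 hH (trans3_map Φ (trans3_swap G h))

omit [DecidableEq α] [Infinite α] in
theorem phi_inj {s t : G} (h : ((Φ s : H) : Perm α) = Φ t) : (s : Perm α) = t := by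
  have : Φ s = Φ t := Subtype.ext h
  rw [Φ.injective this]

omit [DecidableEq α] [Infinite α] in
theorem phi_mul (s t u : G) (h : (s : Perm α) * t = u) :
    ((Φ s : H) : Perm α) * Φ t = Φ u := by
  have e : s * t = u := Subtype.ext h
  rw [← e, map_mul]
  rfl

include hH in
theorem exists_star (x : α) : ∃ p, ∀ w, (h : x ≠ w) →
    ((Φ ⟨swap x w, hG x w⟩ : H) : Perm α) p ≠ p := by
  obtain ⟨w₁, hw₁⟩ := exists_ne5 ({x} : Finset α)
  obtain ⟨w₂, hw₂⟩ := exists_ne5 ({x, w₁} : Finset α)
  simp only [Finset.mem_insert, Finset.mem_singleton, not_or] at hw₁ hw₂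
  obtain ⟨h2x, h21⟩ := hw₂
  obtain ⟨a, b, hab, e1⟩ := image_swap hG hH Φ (Ne.symm hw₁)
  obtain ⟨c, d, hcd, e2⟩ := image_swap hG hH Φ (Ne.symm h2x)
  have conjS : ∀ u v : α, x ≠ u → x ≠ v → u ≠ v →
      ((Φ ⟨swap x u, hG x u⟩ : H) : Perm α) * Φ ⟨swap x v, hG x v⟩ * Φ ⟨swap x u, hG x u⟩ =
        Φ ⟨swap u v, hG u v⟩ := by
    intro u v h1 h2 h3
    rw [phi_mul Φ _ _ (⟨swap x u * swap x v, mul_mem (hG _ _) (hG _ _)⟩ : G) rfl]
    exact phi_mul Φ _ _ _ (swap_conj' h2 h3)
  -- the images are different and do not commute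
  have share : ∀ u v : α, x ≠ u → x ≠ v → u ≠ v → ∀ a b c d : α,
      ((Φ ⟨swap x u, hG x u⟩ : H) : Perm α) = swap a b →
      ((Φ ⟨swap x v, hG x v⟩ : H) : Perm α) = swap c d →
      swap a b * swap c d ≠ swap c d * swap a b := by
    intro u v h1 h2 h3 a b c d ea eb hc
    have e := conjS u v h1 h2 h3
    rw [ea, eb, hc, mul_assoc, swap_mul_self, mul_one, ← eb] at e
    have e' := phi_inj Φ e
    simp only at e'
    rcases swap_eq_cases h2 e' with ⟨h4, _⟩ | ⟨h4, _⟩
    · exact h1 h4
    · exact h2 h4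
  have hs := share w₁ w₂ (Ne.symm hw₁) (Ne.symm h2x) (Ne.symm h21) a b c d e1 e2
  -- the common point
  obtain ⟨p, q, r, hpq, hpr, hqr, f1, f2⟩ : ∃ p q r : α, p ≠ q ∧ p ≠ r ∧ q ≠ r ∧
      swap a b = swap p q ∧ swap c d = swap p r := by
    by_cases hac : a = c
    · by_cases hbd : b = d
      · exact absurd (by rw [hac, hbd]) hs
      · exact ⟨a, b, d, hab, hac ▸ hcd, hbd, rfl, by rw [hac]⟩
    by_cases had : a = d
    · by_cases hbc : b = c
      · exact absurd (by rw [had, hbc, swap_comm]) hs
      · exact ⟨a, b, c, hab, hac, hbc, rfl, by rw [had, swap_comm]⟩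
    by_cases hbc : b = c
    · exact ⟨b, a, d, Ne.symm hab, hbc ▸ hcd, had, swap_comm _ _, by rw [hbc]⟩
    by_cases hbd : b = d
    · exact ⟨b, a, c, Ne.symm hab, hbc, hac, swap_comm _ _, by rw [hbd, swap_comm]⟩
    · exfalso
      apply hs
      have e := swap_apply_apply (swap a b) c d
      rw [swap_inv, swap_apply_of_ne_of_ne (Ne.symm hac) (Ne.symm hbc),
        swap_apply_of_ne_of_ne (Ne.symm had) (Ne.symm hbd)] at e
      calc swap a b * swap c d = swap a b * swap c d * (swap a b * swap a b) := by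
            rw [swap_mul_self, mul_one]
        _ = (swap a b * swap c d * swap a b) * swap a b := by simp only [mul_assoc]
        _ = swap c d * swap a b := by rw [← e]
  refine ⟨p, fun w hxw => ?_⟩
  by_cases hw1 : w = w₁
  · subst hw1
    rw [e1, f1, swap_apply_left]
    exact hpq.symm
  by_cases hw2 : w = w₂
  · subst hw2
    rw [e2, f2, swap_apply_left]
    exact hpr.symm
  intro hfix
  obtain ⟨s, t, hst, e3⟩ := image_swap hG hH Φ hxw
  rw [e3] at hfix
  have hps : p ≠ s := by
    rintro rfl
    rw [swap_apply_left] at hfix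
    exact hst hfix.symm
  have hpt : p ≠ t := by
    rintro rfl
    rw [swap_apply_right] at hfix
    exact hst hfix
  have n1 := share w₁ w (Ne.symm hw₁) hxw (Ne.symm hw1) p q s t (e1.trans f1) e3
  have n2 := share w₂ w (Ne.symm h2x) hxw (Ne.symm hw2) p r s t (e2.trans f2) e3
  have disj : ∀ u : α, u ≠ s → u ≠ t → swap p u * swap s t = swap s t * swap p u := by
    intro u h1 h2
    have e := swap_apply_apply (swap s t) p u
    rw [swap_inv, swap_apply_of_ne_of_ne hps hpt, swap_apply_of_ne_of_ne h1 h2] at e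
    calc swap p u * swap s t = (swap s t * swap p u * swap s t) * swap s t := by rw [← e]
      _ = swap s t * swap p u * (swap s t * swap s t) := by simp only [mul_assoc]
      _ = swap s t * swap p u := by rw [swap_mul_self, mul_one]
  have hq : q = s ∨ q = t := by
    by_contra hc
    push Not at hc
    exact n1 (disj q hc.1 hc.2)
  have hr : r = s ∨ r = t := by
    by_contra hc
    push Not at hc
    exact n2 (disj r hc.1 hc.2)
  have e4 : swap s t = swap q r := by
    rcases hq with hq | hq <;> rcases hr with hr | hr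
    · exact absurd (hq.trans hr.symm) hqr
    · rw [hq, hr]
    · rw [hq, hr, swap_comm]
    · exact absurd (hq.trans hr.symm) hqr
  have e5 := conjS w₁ w₂ (Ne.symm hw₁) (Ne.symm h2x) (Ne.symm h21)
  rw [e1, e2, f1, f2, swap_conj' hpr hqr, ← e4, ← e3] at e5
  have e6 := phi_inj Φ e5
  simp only at e6
  rcases swap_eq_cases hxw e6 with ⟨h4, _⟩ | ⟨h4, _⟩
  · exact hw₁ h4.symm
  · exact h2x h4.symm

end star

/-- the map `φ` with `Φ (swap x w) = swap (φ x) (φ w)` -/
theorem exists_map [Infinite α] {G H : Subgroup (Perm α)} (hG : Full G) (hH : Full H)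
    (Φ : G ≃* H) : ∃ φ : α → α, Function.Injective φ ∧ ∀ x w,
      ((Φ ⟨swap x w, hG x w⟩ : H) : Perm α) = swap (φ x) (φ w) := by
  choose φ hφ using exists_star hG hH Φ
  have form : ∀ x w, x ≠ w → ∀ p, ((Φ ⟨swap x w, hG x w⟩ : H) : Perm α) p ≠ p →
      ((Φ ⟨swap x w, hG x w⟩ : H) : Perm α) =
        swap p (((Φ ⟨swap x w, hG x w⟩ : H) : Perm α) p) := by
    intro x w h p hp
    obtain ⟨a, b, _, e⟩ := image_swap hG hH Φ h
    rw [e] at hp ⊢
    exact swap_of_moved hp
  have sym : ∀ x w, (Φ ⟨swap x w, hG x w⟩ : H) = Φ ⟨swap w x, hG w x⟩ := by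
    intro x w
    congr 1
    exact Subtype.ext (swap_comm x w)
  have inj : Function.Injective φ := by
    intro x w hxw
    by_contra hne
    obtain ⟨y, hy⟩ := exists_ne5 ({x, w} : Finset α)
    simp only [Finset.mem_insert, Finset.mem_singleton, not_or] at hy
    obtain ⟨hyx, hyw⟩ := hy
    have e1 := form x y (Ne.symm hyx) (φ x) (hφ x y (Ne.symm hyx))
    have e2 := form w y (Ne.symm hyw) (φ x) (by rw [hxw]; exact hφ w y (Ne.symm hyw))
    have e3 := form x w hne (φ x) (hφ x w hne)
    set q := ((Φ ⟨swap x y, hG x y⟩ : H) : Perm α) (φ x) with hq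
    set r := ((Φ ⟨swap w y, hG w y⟩ : H) : Perm α) (φ x) with hr
    set s := ((Φ ⟨swap x w, hG x w⟩ : H) : Perm α) (φ x) with hs
    have hqp : q ≠ φ x := hφ x y (Ne.symm hyx)
    have hrp : r ≠ φ x := by rw [hr, hxw]; exact hφ w y (Ne.symm hyw)
    have hsp : s ≠ φ x := hφ x w hne
    have hqr : q ≠ r := by
      intro h
      have : ((Φ ⟨swap x y, hG x y⟩ : H) : Perm α) = Φ ⟨swap w y, hG w y⟩ := by rw [e1, e2, h]
      have e := phi_inj Φ this
      simp only at e
      rcases swap_eq_cases (Ne.symm hyx) e with ⟨h4, _⟩ | ⟨h4, _⟩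
      · exact hne h4
      · exact hyx h4.symm
    have e4 : ((Φ ⟨swap x y, hG x y⟩ : H) : Perm α) * Φ ⟨swap w y, hG w y⟩ *
        Φ ⟨swap x y, hG x y⟩ = Φ ⟨swap x w, hG x w⟩ := by
      rw [phi_mul Φ _ _ (⟨swap x y * swap w y, mul_mem (hG _ _) (hG _ _)⟩ : G) rfl]
      refine phi_mul Φ _ _ _ ?_
      show swap x y * swap w y * swap x y = swap x w
      rw [swap_comm x y, swap_comm w y]
      exact swap_conj' hyw hne
    rw [e1, e2, e3, swap_conj' (Ne.symm hrp) hqr] at e4
    rcases swap_eq_cases hqr e4 with ⟨h4, _⟩ | ⟨_, h4⟩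
    · exact hqp h4
    · exact hrp h4
  refine ⟨φ, inj, fun x w => ?_⟩
  by_cases hxw : x = w
  · subst hxw
    have : (⟨swap x x, hG x x⟩ : G) = 1 := Subtype.ext (swap_self x)
    rw [this, map_one, swap_self]
    rfl
  have e1 := form x w hxw (φ x) (hφ x w hxw)
  have e2 : ((Φ ⟨swap x w, hG x w⟩ : H) : Perm α) (φ w) ≠ φ w := by
    rw [sym]
    exact hφ w x (Ne.symm hxw)
  rw [e1] at e2
  have e3 : φ w = ((Φ ⟨swap x w, hG x w⟩ : H) : Perm α) (φ x) := by
    by_contra hc
    exact e2 (swap_apply_of_ne_of_ne (fun h => hxw (inj h.symm)) hc)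
  rw [e1, ← e3]

/-- **Reconstruction.** Every isomorphism between two groups of permutations of an infinite set which
contain all transpositions is the conjugation by a permutation. -/
theorem exists_conj [Infinite α] {G H : Subgroup (Perm α)} (hG : Full G) (hH : Full H)
    (Φ : G ≃* H) : ∃ φ : Perm α, ∀ g : G, ((Φ g : H) : Perm α) = φ * g * φ⁻¹ := by
  obtain ⟨φ, inj, hφ⟩ := exists_map hG hH Φ
  obtain ⟨ψ, _, hψ⟩ := exists_map hH hG Φ.symm
  have surj : Function.Surjective φ := by
    intro p
    obtain ⟨q, hq⟩ := exists_ne5 ({p} : Finset α)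
    simp only [Finset.mem_singleton] at hq
    have e1 := hψ p q
    have e2 : Φ.symm ⟨swap p q, hH p q⟩ = ⟨swap (ψ p) (ψ q), hG _ _⟩ := Subtype.ext e1
    have e3 := hφ (ψ p) (ψ q)
    rw [← e2, Φ.apply_symm_apply] at e3
    rcases swap_eq_cases (Ne.symm hq) e3 with ⟨h4, _⟩ | ⟨h4, _⟩
    · exact ⟨_, h4.symm⟩
    · exact ⟨_, h4.symm⟩
  let f : Perm α := Equiv.ofBijective φ ⟨inj, surj⟩
  have hf : ∀ x, f x = φ x := fun _ => rfl
  refine ⟨f, fun g => ?_⟩
  have key : ∀ x y, x ≠ y →
      swap (((Φ g : H) : Perm α) (φ x)) (((Φ g : H) : Perm α) (φ y)) =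
        swap (φ ((g : Perm α) x)) (φ ((g : Perm α) y)) := by
    intro x y hxy
    rw [swap_apply_apply, ← hφ x y, ← hφ]
    have e : g * ⟨swap x y, hG x y⟩ * g⁻¹ = ⟨swap ((g : Perm α) x) ((g : Perm α) y), hG _ _⟩ :=
      Subtype.ext (swap_apply_apply (g : Perm α) x y).symm
    rw [← e, map_mul, map_mul, map_inv]
    rfl
  have main : ∀ x, ((Φ g : H) : Perm α) (φ x) = φ ((g : Perm α) x) := by
    intro x
    obtain ⟨y, hy⟩ := exists_ne5 ({x} : Finset α)
    obtain ⟨z, hz⟩ := exists_ne5 ({x, y} : Finset α)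
    simp only [Finset.mem_insert, Finset.mem_singleton, not_or] at hy hz
    obtain ⟨hzx, hzy⟩ := hz
    have n1 : ((Φ g : H) : Perm α) (φ x) ≠ ((Φ g : H) : Perm α) (φ y) := fun h =>
      hy (inj (((Φ g : H) : Perm α).injective h)).symm
    have n2 : ((Φ g : H) : Perm α) (φ x) ≠ ((Φ g : H) : Perm α) (φ z) := fun h =>
      hzx (inj (((Φ g : H) : Perm α).injective h)).symm
    rcases swap_eq_cases n1 (key x y (Ne.symm hy)) with ⟨h4, _⟩ | ⟨h4, _⟩
    · exact h4
    rcases swap_eq_cases n2 (key x z (Ne.symm hzx)) with ⟨h5, _⟩ | ⟨h5, _⟩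
    · exact h5
    · exfalso
      have := h4.symm.trans h5
      exact hzy ((g : Perm α).injective (inj this)).symm
  refine Equiv.ext fun y => ?_
  obtain ⟨x, rfl⟩ := surj y
  rw [Perm.mul_apply, Perm.mul_apply, main x]
  show _ = f ((g : Perm α) (f.symm (f x)))
  rw [f.symm_apply_apply]
  rfl

end Pool.Agent.Y596.GI
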