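import Pool.Agent.Y596.GI.Fold
import Pool.Agent.Y596.GI.Recon

/-!
# The groups of the levels of the polynomial hierarchy
-/

set_option autoImplicit false

namespace Pool.Agent.Y596.GI

open Pool.Agent.NPC Pool.Agent.H251R5.PQ Pool.Agent.W901.AT Pool.Agent.H579R2.Spt
open Pool.Agent.NPC.PIso
open Pool.Agent.W901.NU Pool.Agent.W901.PX
open Pool.Agent.W903.GP (InPH SigmaP sigma_props sigma_ex sigma_succ sigma_mono u1 u2 u1_pair
  u2_pair poly_u1 poly_u2 pid inP_iff graph mem_graph Nice nice_sigma c_graph_poly c_graph_comp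
  c_graph_inv isPair poly_isPair isPair_pairBits graph_eq)

/-! ### graphs and the calculus -/

section

variable {k : ℕ}

theorem cfn_of_graph {f : List Bool → List Bool} (h : SigmaP k (graph f)) {ρ : Polynomial ℕ}
    (hρ : ∀ x, (f x).length ≤ ρ.eval x.length) : CFn (SigmaP k) f := by
  refine ⟨⟨Polynomial.C 4 * ρ + 1, fun x => ?_⟩, ?_⟩
  · have h1 := sz_listBool_le (f x)
    have h2 := hρ x
    have h3 := eval_mono ρ (length_lt_sz x).le
    simp only [Polynomial.eval_add, Polynomial.eval_mul, Polynomial.eval_C, Polynomial.eval_one]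
    omega
  · refine (sComp (sOf_raw h) (f := fun q : List Bool × List Bool => pairBits q.1 q.2)
      (H622R2.poly_pairBits (NPC.Poly.fst NPC.Poly.id) (NPC.Poly.snd NPC.Poly.id))).congr
      fun q => ?_
    rw [mem_graph, eq_comm]

theorem graph_of_cfn {f : List Bool → List Bool} (h : CFn (SigmaP k) f) :
    SigmaP k (graph f) := by
  rw [graph_eq]
  refine sTo_raw (sAnd (sPoly poly_isPair) ?_)
  exact (sComp h.2 (f := fun z : List Bool => ((unpair z).1, (unpair z).2))
    (NPC.Poly.pair (NPC.Poly.fst poly_unpair) (NPC.Poly.snd poly_unpair))).congr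
    fun z => eq_comm

end

/-! ### the moves -/

/-- the parity of the length -/
def par (x : List Bool) : Bool := decide (x.length % 2 = 1)

theorem par_cons (b : Bool) (x : List Bool) : par (b :: x) = !par x := by
  unfold par
  rw [List.length_cons]
  by_cases h : x.length % 2 = 1
  · rw [decide_eq_true h]
    simp only [Bool.not_true, decide_eq_false_iff_not]
    omega
  · rw [decide_eq_false h]
    simp only [Bool.not_false, decide_eq_true_eq]
    omega

/-- The move: put `b` in front of the strings of parity `p`, and conversely. -/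
def mv (b p : Bool) (x : List Bool) : List Bool :=
  if par x = p then b :: x else if x.head? = some b then x.tail else x

theorem mv_mv (b p : Bool) (x : List Bool) : mv b p (mv b p x) = x := by
  by_cases h1 : par x = p
  · have h2 : mv b p x = b :: x := by unfold mv; rw [if_pos h1]
    have h3 : par (b :: x) ≠ p := by
      rw [par_cons, h1]
      cases p <;> decide
    rw [h2]
    unfold mv
    rw [if_neg h3, if_pos (by rfl)]
    rfl
  · by_cases h2 : x.head? = some b
    · obtain ⟨t, rfl⟩ : ∃ t, x = b :: t := by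
        cases x with
        | nil => simp at h2
        | cons c t =>
          simp only [List.head?_cons, Option.some.injEq] at h2
          exact ⟨t, by rw [h2]⟩
      have h3 : mv b p (b :: t) = t := by unfold mv; rw [if_neg h1, if_pos h2]; rfl
      have h4 : par t = p := by
        rw [par_cons] at h1
        cases hp : par t <;> cases p <;> simp_all
      rw [h3]
      unfold mv
      rw [if_pos h4]
    · have h3 : mv b p x = x := by unfold mv; rw [if_neg h1, if_neg h2]
      rw [h3, h3]

/-- The move as a permutation. -/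
def mvE (b p : Bool) : Equiv.Perm (List Bool) := ⟨mv b p, mv b p, mv_mv b p, mv_mv b p⟩

theorem mvE_apply (b : Bool) (x : List Bool) : mvE b (par x) x = b :: x := by
  show mv b (par x) x = b :: x
  unfold mv
  rw [if_pos rfl]

theorem mvE_inv (b p : Bool) : (mvE b p)⁻¹ = mvE b p := rfl

theorem mv_length (b p : Bool) (x : List Bool) : (mv b p x).length ≤ x.length + 1 := by
  unfold mv
  split_ifs
  · exact le_rfl
  · rw [List.length_tail]; omega
  · omega

theorem poly_par : Poly par :=
  NPC.Poly.decide_eq (NPC.Poly.mod (NPC.Poly.length NPC.Poly.id) (NPC.Poly.const 2))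
    (NPC.Poly.const 1)

theorem poly_mv (b p : Bool) : Poly (mv b p) := by
  have h1 : Poly (fun x : List Bool => decide (x.head? = some b)) :=
    NPC.Poly.decide_eq (NPC.Poly.head? NPC.Poly.id) (NPC.Poly.const _)
  exact NPC.Poly.ite (NPC.Poly.decide_eq poly_par (NPC.Poly.const p))
    (NPC.Poly.cons (NPC.Poly.const b) NPC.Poly.id)
    (NPC.Poly.ite h1 (NPC.Poly.tail NPC.Poly.id) NPC.Poly.id)

/-! ### flips -/

open Classical in
/-- Flip the first bit of the nonempty strings whose tail is in `L`. -/
noncomputable def fl (L : Set (List Bool)) : List Bool → List Bool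
  | [] => []
  | b :: x => if x ∈ L then (!b) :: x else b :: x

theorem fl_fl (L : Set (List Bool)) (x : List Bool) : fl L (fl L x) = x := by
  cases x with
  | nil => rfl
  | cons b x =>
    by_cases h : x ∈ L
    · rw [fl, if_pos h, fl, if_pos h, Bool.not_not]
    · rw [fl, if_neg h, fl, if_neg h]

/-- The flips as a permutation. -/
noncomputable def flE (L : Set (List Bool)) : Equiv.Perm (List Bool) :=
  ⟨fl L, fl L, fl_fl L, fl_fl L⟩

theorem fl_length (L : Set (List Bool)) (x : List Bool) : (fl L x).length = x.length := by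
  cases x with
  | nil => rfl
  | cons b x => rw [fl]; split_ifs <;> rfl

theorem fl_iff (L : Set (List Bool)) (x : List Bool) : x ∈ L ↔ fl L (false :: x) = true :: x := by
  by_cases h : x ∈ L
  · simp [fl, h]
  · simp [fl, h]

/-- the flips are computable in every level which contains the set and its complement -/
theorem cfn_fl {k : ℕ} {L : Set (List Bool)} (h : SigmaP k L) (h' : SigmaP k Lᶜ) :
    CFn (SigmaP k) (fl L) := by
  refine ⟨⟨Polynomial.C 4 * Polynomial.X + 1, fun x => ?_⟩, ?_⟩
  · have h1 := sz_listBool_le (fl L x)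
    have h2 := length_lt_sz x
    rw [fl_length] at h1
    simp only [Polynomial.eval_add, Polynomial.eval_mul, Polynomial.eval_C, Polynomial.eval_one,
      Polynomial.eval_X]
    omega
  · have p1 : Poly (fun q : List Bool × List Bool => q.1) := NPC.Poly.fst NPC.Poly.id
    have p2 : Poly (fun q : List Bool × List Bool => q.2) := NPC.Poly.snd NPC.Poly.id
    have c1 : CPr (SigmaP k) (fun q : List Bool × List Bool => q.1.tail ∈ L) :=
      sComp (sOf_raw h) (NPC.Poly.tail p1)
    have c2 : CPr (SigmaP k) (fun q : List Bool × List Bool => q.1.tail ∈ Lᶜ) :=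
      sComp (sOf_raw h') (NPC.Poly.tail p1)
    have c3 : CPr (SigmaP k) (fun q : List Bool × List Bool =>
        decide (q.2 = (q.1.head?.map Bool.not).toList ++ q.1.tail) = true) := by
      refine sPoly (NPC.Poly.decide_eq p2 (NPC.Poly.append ?_ (NPC.Poly.tail p1)))
      refine (NPC.Poly.optCases (o := fun q : List Bool × List Bool => q.1.head?)
        (g := fun _ => ([] : List Bool)) (h := fun _ b => [!b]) (NPC.Poly.head? p1)
        (NPC.Poly.const []) (NPC.Poly.cons (NPC.Poly.not (NPC.Poly.snd NPC.Poly.id))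
          (NPC.Poly.const []))).congr fun q => ?_
      cases q.1.head? <;> rfl
    have c4 : CPr (SigmaP k) (fun q : List Bool × List Bool => decide (q.2 = q.1) = true) :=
      sPoly (NPC.Poly.decide_eq p2 p1)
    refine (sOr (sAnd c1 c3) (sAnd c2 c4)).congr fun q => ?_
    obtain ⟨x, y⟩ := q
    simp only [decide_eq_true_eq, Set.mem_compl_iff]
    cases x with
    | nil =>
      simp only [List.tail_nil, List.head?_nil, Option.map_none, Option.toList_none,
        List.append_nil, fl]
      tauto
    | cons b x =>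
      simp only [List.tail_cons, List.head?_cons, Option.map_some, Option.toList_some,
        List.singleton_append, fl]
      by_cases hx : x ∈ L
      · simp only [hx, if_true]
        tauto
      · simp only [hx, if_false]
        tauto

/-! ### the groups -/

/-- The permutations of the set of bit strings whose graph is in the class and which change the
lengths by a bounded amount. -/
def Bdd (C : Set (List Bool) → Prop) (hC : Nice C) : Subgroup (Equiv.Perm (List Bool)) where
  carrier := {f | (∃ c : ℕ, ∀ x, (f x).length ≤ x.length + c ∧ (f⁻¹ x).length ≤ x.length + c) ∧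
    C (graph ⇑f)}
  mul_mem' := by
    rintro a b ⟨⟨c, ha⟩, ha1⟩ ⟨⟨d, hb⟩, hb1⟩
    have h : C (graph (fun x => a (b x))) := c_graph_comp hC ha1 hb1
      (ρ := Polynomial.X + Polynomial.C d) (fun x => by
        simpa only [Polynomial.eval_add, Polynomial.eval_X, Polynomial.eval_C] using (hb x).1)
    refine ⟨⟨c + d, fun x => ⟨?_, ?_⟩⟩, h⟩
    · rw [Equiv.Perm.mul_apply]
      have := (ha (b x)).1
      have := (hb x).1
      omega
    · rw [mul_inv_rev, Equiv.Perm.mul_apply]
      have := (hb (a⁻¹ x)).2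
      have := (ha x).2
      omega
  one_mem' := ⟨⟨0, fun x => ⟨le_rfl, le_rfl⟩⟩, c_graph_poly hC Pool.Agent.NPC.Poly.id⟩
  inv_mem' := by
    rintro a ⟨⟨c, ha⟩, ha1⟩
    exact ⟨⟨c, fun x => ⟨(ha x).2, by rw [inv_inv]; exact (ha x).1⟩⟩, c_graph_inv hC ha1⟩

theorem poly_swap (a b : List Bool) : Poly (fun x => Equiv.swap a b x) :=
  (NPC.Poly.ite (NPC.Poly.decide_eq NPC.Poly.id (NPC.Poly.const a)) (NPC.Poly.const b)
    (NPC.Poly.ite (NPC.Poly.decide_eq NPC.Poly.id (NPC.Poly.const b)) (NPC.Poly.const a)
      NPC.Poly.id)).congr fun x => (Equiv.swap_apply_def a b x).symm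

theorem swap_length (a b x : List Bool) :
    (Equiv.swap a b x).length ≤ x.length + (a.length + b.length) := by
  rw [Equiv.swap_apply_def]
  split_ifs <;> omega

theorem full_bdd (C : Set (List Bool) → Prop) (hC : Nice C) : Full (Bdd C hC) := fun a b =>
  ⟨⟨a.length + b.length, fun x => ⟨swap_length a b x, by
    rw [Equiv.swap_inv]; exact swap_length a b x⟩⟩, c_graph_poly hC (poly_swap a b)⟩

theorem mvE_mem (C : Set (List Bool) → Prop) (hC : Nice C) (b p : Bool) :
    mvE b p ∈ Bdd C hC :=
  ⟨⟨1, fun x => ⟨mv_length b p x, mv_length b p x⟩⟩, c_graph_poly hC (poly_mv b p)⟩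

theorem flE_mem {k : ℕ} {L : Set (List Bool)} (h : SigmaP (k + 1) L) (h' : SigmaP (k + 1) Lᶜ) :
    flE L ∈ Bdd (SigmaP (k + 1)) (nice_sigma k) :=
  ⟨⟨0, fun x => ⟨(fl_length L x).le, (fl_length L x).le⟩⟩, graph_of_cfn (cfn_fl h h')⟩

/-! ### the conjugating permutation -/

theorem length_of_moves {ψ : List Bool → List Bool} {N : Bool → Bool → List Bool → List Bool}
    {c : ℕ} (hc : ∀ b p x, (N b p x).length ≤ x.length + c)
    (hψ : ∀ b x, ψ (b :: x) = N b (par x) (ψ x)) (x : List Bool) :
    (ψ x).length ≤ (ψ []).length + c * x.length := by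
  induction x with
  | nil => simp
  | cons b x ih =>
    rw [hψ, List.length_cons, Nat.mul_succ]
    have := hc b (par x) (ψ x)
    omega

theorem foldr_moves {ψ : List Bool → List Bool} {N : Bool → Bool → List Bool → List Bool}
    (hψ : ∀ b x, ψ (b :: x) = N b (par x) (ψ x)) (x : List Bool) :
    x.foldr (fun b s => (!s.1, N b s.1 s.2)) (false, ψ []) = (par x, ψ x) := by
  induction x with
  | nil => rfl
  | cons b x ih => rw [List.foldr_cons, ih, par_cons, hψ]

/-- the step -/
theorem cfn_step {k : ℕ} {N : Bool → Bool → List Bool → List Bool} {c : ℕ}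
    (hc : ∀ b p x, (N b p x).length ≤ x.length + c)
    (hN : ∀ b p, SigmaP (k + 1) (graph (N b p))) :
    CFn (SigmaP (k + 1)) (fun q : Bool × (Bool × List Bool) => (!q.2.1, N q.1 q.2.1 q.2.2)) := by
  have hN' : ∀ b p, CFn (SigmaP (k + 1)) (N b p) := fun b p =>
    cfn_of_graph (hN b p) (ρ := Polynomial.X + Polynomial.C c) fun x => by
      simpa only [Polynomial.eval_add, Polynomial.eval_X, Polynomial.eval_C] using hc b p x
  have h1 : CFn (SigmaP (k + 1)) (fun q : Bool × (Bool × List Bool) => N q.1 q.2.1 q.2.2) := by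
    refine ⟨⟨Polynomial.C 4 * (Polynomial.X + Polynomial.C c) + 1, fun q => ?_⟩, ?_⟩
    · have h1 := sz_listBool_le (N q.1 q.2.1 q.2.2)
      have h2 := hc q.1 q.2.1 q.2.2
      have h3 := length_lt_sz q.2.2
      have h4 : sz q = sz q.1 + (sz q.2.1 + sz q.2.2 + 1) + 1 := by
        obtain ⟨b, p, x⟩ := q
        rw [sz_pair, sz_pair]
      simp only [Polynomial.eval_add, Polynomial.eval_mul, Polynomial.eval_C,
        Polynomial.eval_one, Polynomial.eval_X]
      omega
    · have h2 : ∀ b p, CPr (SigmaP (k + 1)) (fun s : (Bool × (Bool × List Bool)) × List Bool =>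
          decide (s.1.1 = b ∧ s.1.2.1 = p) = true ∧ N b p s.1.2.2 = s.2) := by
        intro b p
        refine sAnd (sPoly (NPC.Poly.decide_and
          (NPC.Poly.decide_eq (NPC.Poly.fst (NPC.Poly.fst NPC.Poly.id)) (NPC.Poly.const b))
          (NPC.Poly.decide_eq (NPC.Poly.fst (NPC.Poly.snd (NPC.Poly.fst NPC.Poly.id)))
            (NPC.Poly.const p)))) ?_
        exact sComp (hN' b p).2
          (f := fun s : (Bool × (Bool × List Bool)) × List Bool => (s.1.2.2, s.2))
          (NPC.Poly.pair (NPC.Poly.snd (NPC.Poly.snd (NPC.Poly.fst NPC.Poly.id)))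
            (NPC.Poly.snd NPC.Poly.id))
      refine (sOr (sOr (h2 false false) (h2 false true))
        (sOr (h2 true false) (h2 true true))).congr fun s => ?_
      obtain ⟨⟨b, p, x⟩, y⟩ := s
      cases b <;> cases p <;> simp
  exact fPair (fPoly (NPC.Poly.not (NPC.Poly.fst (NPC.Poly.snd NPC.Poly.id)))) h1

theorem cfn_moves {k : ℕ} {ψ : List Bool → List Bool}
    {N : Bool → Bool → List Bool → List Bool} {c : ℕ}
    (hc : ∀ b p x, (N b p x).length ≤ x.length + c)
    (hψ : ∀ b x, ψ (b :: x) = N b (par x) (ψ x))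
    (hN : ∀ b p, SigmaP (k + 1) (graph (N b p))) : CFn (SigmaP (k + 1)) ψ := by
  have h1 := fFoldr (l := fun x : List Bool => x) (F := fun b s => (!s.1, N b s.1 s.2))
    (b0 := (false, ψ [])) NPC.Poly.id (cfn_step hc hN)
    (Polynomial.C 4 * (Polynomial.C (ψ []).length + Polynomial.C c * Polynomial.X) + 5)
    (fun a t ht => by
      rw [foldr_moves hψ, sz_pair]
      have e1 := sz_bool_le (par t)
      have e2 := sz_listBool_le (ψ t)
      have e3 := length_of_moves hc hψ t
      have e4 : t.length ≤ a.length := ((List.mem_tails _ _).1 ht).length_le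
      have e5 := length_lt_sz a
      have e6 : c * t.length ≤ c * sz a := Nat.mul_le_mul_left _ (by omega)
      simp only [Polynomial.eval_add, Polynomial.eval_mul, Polynomial.eval_C,
        Polynomial.eval_X, Polynomial.eval_ofNat]
      omega)
  have h2 : CFn (SigmaP (k + 1)) (fun x : List Bool => (par x, ψ x)) :=
    h1.congr fun x => foldr_moves hψ x
  exact (fComp (fPoly (NPC.Poly.snd NPC.Poly.id)) h2)

/-- **Main lemma.** -/
theorem sigma_of_iso {j k : ℕ}
    (Φ : Bdd (SigmaP (k + 1)) (nice_sigma k) ≃* Bdd (SigmaP (j + 1)) (nice_sigma j))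
    {L : Set (List Bool)} (h : SigmaP (k + 1) L) (h' : SigmaP (k + 1) Lᶜ) : SigmaP (j + 1) L := by
  obtain ⟨φ, hφ⟩ := exists_conj (full_bdd _ (nice_sigma k)) (full_bdd _ (nice_sigma j)) Φ
  -- transport of an element
  have tr : ∀ (f : Equiv.Perm (List Bool)) (hf : f ∈ Bdd (SigmaP (k + 1)) (nice_sigma k)) x,
      ((Φ ⟨f, hf⟩ : Bdd (SigmaP (j + 1)) (nice_sigma j)) : Equiv.Perm (List Bool)) (φ x) =
        φ (f x) := by
    intro f hf x
    rw [hφ]
    show φ (f (φ.symm (φ x))) = _
    rw [φ.symm_apply_apply]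
  have hb : ∀ b p, ∃ c : ℕ, ∀ x, (((Φ ⟨mvE b p, mvE_mem _ _ b p⟩ :
      Bdd (SigmaP (j + 1)) (nice_sigma j)) : Equiv.Perm (List Bool)) x).length ≤ x.length + c := by
    intro b p
    obtain ⟨⟨c, hc⟩, _⟩ := (Φ ⟨mvE b p, mvE_mem _ _ b p⟩).2
    exact ⟨c, fun x => (hc x).1⟩
  choose c hc using hb
  set N : Bool → Bool → List Bool → List Bool := fun b p =>
    ⇑((Φ ⟨mvE b p, mvE_mem _ _ b p⟩ : Bdd (SigmaP (j + 1)) (nice_sigma j)) :
      Equiv.Perm (List Bool)) with hN
  have h1 : CFn (SigmaP (j + 1)) ⇑φ := by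
    refine cfn_moves (N := N) (c := c false false + c false true + c true false + c true true)
      (fun b p x => ?_) (fun b x => ?_) (fun b p => (Φ ⟨mvE b p, mvE_mem _ _ b p⟩).2.2)
    · have := hc b p x
      rw [hN]
      cases b <;> cases p <;> simp only <;> omega
    · rw [hN]
      simp only
      rw [tr, mvE_apply]
  obtain ⟨⟨c', hc'⟩, hg⟩ := (Φ ⟨flE L, flE_mem h h'⟩).2
  have h2 : CFn (SigmaP (j + 1)) ⇑((Φ ⟨flE L, flE_mem h h'⟩ :
      Bdd (SigmaP (j + 1)) (nice_sigma j)) : Equiv.Perm (List Bool)) :=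
    cfn_of_graph hg (ρ := Polynomial.X + Polynomial.C c') fun x => by
      simpa only [Polynomial.eval_add, Polynomial.eval_X, Polynomial.eval_C] using (hc' x).1
  have q1 : CFn (SigmaP (j + 1)) (fun x : List Bool => φ (false :: x)) :=
    fCompPoly h1 (NPC.Poly.cons (NPC.Poly.const false) NPC.Poly.id)
  have q2 : CFn (SigmaP (j + 1)) (fun x : List Bool => φ (true :: x)) :=
    fCompPoly h1 (NPC.Poly.cons (NPC.Poly.const true) NPC.Poly.id)
  have h3 := sTo_raw (sEq (fComp h2 q1) q2)
  have e : L = {x : List Bool | ((Φ ⟨flE L, flE_mem h h'⟩ :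
      Bdd (SigmaP (j + 1)) (nice_sigma j)) : Equiv.Perm (List Bool)) (φ (false :: x)) =
        φ (true :: x)} := by
    ext x
    rw [fl_iff L x, Set.mem_ofPred_eq, tr]
    exact φ.injective.eq_iff.symm
  rw [e]
  exact h3

end Pool.Agent.Y596.GI
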